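import Pool.Agent.H67.HM.Stm2

open Polynomial MeasureTheory Filter Topology

namespace HM

namespace EstAux

lemma small {X ε B : ℝ} (hX : 0 ≤ X) (hε : 0 < ε) (hB : 0 < B) :
    ∃ η : ℝ, 0 < η ∧ η ≤ B ∧ η * X ≤ ε := by
  refine ⟨min B (ε / (X + 1)), by positivity, min_le_left _ _, ?_⟩
  calc min B (ε / (X + 1)) * X ≤ ε / (X + 1) * X := by
        gcongr; exact min_le_right _ _
    _ = ε * (X / (X + 1)) := by ring
    _ ≤ ε * 1 := by
        gcongr
        rw [div_le_one (by positivity)]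
        linarith
    _ = ε := mul_one _

lemma trunc {s : ℕ → ℝ} (h0 : ∀ j, 0 ≤ s j) {n : ℕ} (h1 : ∀ j, n ≤ j → s j = 0) (J : ℕ) :
    ∑ j ∈ Finset.range J, s j ≤ ∑ j ∈ Finset.range n, s j := by
  have e : ∑ j ∈ Finset.range n, s j = ∑ j ∈ Finset.range (max J n), s j := by
    refine Finset.sum_subset (Finset.range_subset_range.2 (le_max_right _ _)) ?_
    intro x _ hx
    exact h1 x (by simpa using hx)
  rw [e]
  exact Finset.sum_le_sum_of_subset_of_nonneg (Finset.range_subset_range.2 (le_max_left _ _))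
    fun _ _ _ => h0 _

lemma pow_two_bd {κ : ℝ} {n : ℕ} (h0 : 0 ≤ κ) (h1 : κ ≤ 1 / (2 * ((n : ℝ) + 1))) :
    (1 + κ) ^ (n + 1) ≤ 2 := by
  have hn : (0 : ℝ) < (n : ℝ) + 1 := by positivity
  have h2 : 1 + κ ≤ Real.exp κ := by
    have := Real.add_one_le_exp κ
    linarith
  have h3 : (1 + κ) ^ (n + 1) ≤ Real.exp (((n + 1 : ℕ) : ℝ) * κ) := by
    rw [Real.exp_nat_mul]
    exact pow_le_pow_left₀ (by linarith) h2 _
  have h4 : ((n + 1 : ℕ) : ℝ) * κ ≤ 1 / 2 := by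
    push_cast
    calc ((n : ℝ) + 1) * κ ≤ ((n : ℝ) + 1) * (1 / (2 * ((n : ℝ) + 1))) := by gcongr
      _ = 1 / 2 := by field_simp
  have h5 : Real.exp (1 / 2 : ℝ) ≤ 2 := by
    have e1 : Real.exp (1 / 2 : ℝ) * Real.exp (1 / 2 : ℝ) = Real.exp 1 := by
      rw [← Real.exp_add]; norm_num
    have e2 := Real.exp_one_lt_d9
    have e3 := Real.exp_pos (1 / 2 : ℝ)
    nlinarith
  exact h3.trans ((Real.exp_le_exp.2 h4).trans h5)

lemma exists_U (A γ : ℂ[X]) (hA : ∀ z : ℂ, ‖z‖ = 1 → A.eval z ≠ 0) :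
    ∃ U₀ : ℝ, ∀ U, U₀ ≤ U → ∀ z : ℂ, ‖z‖ = 1 → ‖γ.eval z‖ < U * ‖A.eval z‖ := by
  have hc : IsCompact (Metric.sphere (0 : ℂ) 1) := isCompact_sphere 0 1
  have hcont : ContinuousOn (fun z : ℂ => ‖γ.eval z‖ / ‖A.eval z‖) (Metric.sphere (0 : ℂ) 1) := by
    refine ContinuousOn.div (by fun_prop) (by fun_prop) ?_
    intro z hz
    have : ‖z‖ = 1 := by simpa using hz
    exact norm_ne_zero_iff.2 (hA z this)
  obtain ⟨M, hM⟩ := hc.bddAbove_image hcont
  refine ⟨M + 1, fun U hU z hz => ?_⟩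
  have hz' : z ∈ Metric.sphere (0 : ℂ) 1 := by simpa using hz
  have h1 : ‖γ.eval z‖ / ‖A.eval z‖ ≤ M := hM ⟨z, hz', rfl⟩
  have h2 : 0 < ‖A.eval z‖ := norm_pos_iff.2 (hA z hz)
  rw [div_le_iff₀ h2] at h1
  nlinarith

/-- the weighted sum -/
noncomputable def Sg (p : ℝ) (u b a : RR) (J : ℕ) (R : RR) : ℝ :=
  ∑ j ∈ Finset.range J, (1 / 3 : ℝ) ^ (j + 1) * Nn p ((u * b) ^ j * (a * R))

section
variable (hN : S_NRM)
include hN

lemma npow (x : RR) (n : ℕ) : Nn 1 (x ^ n) ≤ (Nn 1 x) ^ n := by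
  induction n with
  | zero =>
    rw [pow_zero, pow_zero]
    exact (hN.one (G := ℤ) 1 le_rfl).le
  | succ k ih =>
    rw [pow_succ', pow_succ']
    exact (hN.mul 1 x (x ^ k) le_rfl).trans (mul_le_mul_of_nonneg_left ih (hN.nonneg 1 x))

lemma npow_le (x : RR) {X : ℝ} (hx : Nn 1 x ≤ X) (n : ℕ) : Nn 1 (x ^ n) ≤ X ^ n :=
  (npow hN x n).trans (pow_le_pow_left₀ (hN.nonneg 1 x) hx n)

lemma nmul {r : ℝ} (hr : 1 ≤ r) (x y : RR) {X Y : ℝ} (hx : Nn 1 x ≤ X) (hy : Nn r y ≤ Y) :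
    Nn r (x * y) ≤ X * Y :=
  (hN.mul r x y hr).trans (mul_le_mul hx hy (hN.nonneg _ _) ((hN.nonneg 1 x).trans hx))

lemma wsum {p : ℝ} (hp : 1 ≤ p) (u F : RR) {U : ℝ} (hu : Nn 1 u ≤ U) (E : ℕ → RR) (J : ℕ) :
    ∑ j ∈ Finset.range J, (1 / 3 : ℝ) ^ (j + 1) * Nn p (u ^ j * (F * E j)) ≤
      Nn 1 F * ∑ j ∈ Finset.range J, U ^ j * Nn p (E j) := by
  rw [Finset.mul_sum]
  refine Finset.sum_le_sum fun j _ => ?_
  have h1 : Nn p (u ^ j * (F * E j)) ≤ U ^ j * (Nn 1 F * Nn p (E j)) :=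
    nmul hN hp _ _ (npow_le hN u hu j) (nmul hN hp _ _ le_rfl le_rfl)
  have h2 : (1 / 3 : ℝ) ^ (j + 1) ≤ 1 := pow_le_one₀ (by norm_num) (by norm_num)
  calc (1 / 3 : ℝ) ^ (j + 1) * Nn p (u ^ j * (F * E j))
      ≤ 1 * Nn p (u ^ j * (F * E j)) := mul_le_mul_of_nonneg_right h2 (hN.nonneg _ _)
    _ ≤ 1 * (U ^ j * (Nn 1 F * Nn p (E j))) := by gcongr
    _ = Nn 1 F * (U ^ j * Nn p (E j)) := by ring

lemma Sg_sub {p : ℝ} (hp : 1 ≤ p) (u b a : RR) (J : ℕ) (R R' : RR) :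
    Sg p u b a J (R - R') ≤ Sg p u b a J R + Sg p u b a J R' := by
  unfold Sg
  rw [← Finset.sum_add_distrib]
  refine Finset.sum_le_sum fun j _ => ?_
  rw [← mul_add]
  refine mul_le_mul_of_nonneg_left ?_ (by positivity)
  have e : (u * b) ^ j * (a * (R - R')) = (u * b) ^ j * (a * R) - (u * b) ^ j * (a * R') := by ring
  rw [e]
  exact hN.sub p _ _ hp

lemma Sg_add {p : ℝ} (hp : 1 ≤ p) (u b a : RR) (J : ℕ) (R R' : RR) :
    Sg p u b a J (R + R') ≤ Sg p u b a J R + Sg p u b a J R' := by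
  unfold Sg
  rw [← Finset.sum_add_distrib]
  refine Finset.sum_le_sum fun j _ => ?_
  rw [← mul_add]
  refine mul_le_mul_of_nonneg_left ?_ (by positivity)
  have e : (u * b) ^ j * (a * (R + R')) = (u * b) ^ j * (a * R) + (u * b) ^ j * (a * R') := by ring
  rw [e]
  exact hN.add p _ _ hp

lemma Sg_sum {p : ℝ} (hp : 1 ≤ p) (u b a : RR) (J : ℕ) (s : Finset ℕ) (R : ℕ → RR) :
    Sg p u b a J (∑ l ∈ s, R l) ≤ ∑ l ∈ s, Sg p u b a J (R l) := by
  unfold Sg
  rw [Finset.sum_comm]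
  refine Finset.sum_le_sum fun j _ => ?_
  rw [← Finset.mul_sum]
  refine mul_le_mul_of_nonneg_left ?_ (by positivity)
  rw [Finset.mul_sum, Finset.mul_sum]
  exact hN.sum p s _ hp

omit hN in
lemma Sg_FD (p : ℝ) (u b a : RR) (J : ℕ) (F D : RR) :
    Sg p u b a J (F * D) = ∑ j ∈ Finset.range J,
      (1 / 3 : ℝ) ^ (j + 1) * Nn p (u ^ j * ((a * F) * (b ^ j * D))) := by
  unfold Sg
  refine Finset.sum_congr rfl fun j _ => ?_
  have e : (u * b) ^ j * (a * (F * D)) = u ^ j * ((a * F) * (b ^ j * D)) := by ring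
  rw [e]

lemma Sg_le {p : ℝ} (hp : 1 ≤ p) (u b a : RR) {U : ℝ} (hu : Nn 1 u ≤ U) (J : ℕ) (F D : RR) :
    Sg p u b a J (F * D) ≤
      Nn 1 (a * F) * ∑ j ∈ Finset.range J, U ^ j * Nn p (b ^ j * D) := by
  rw [Sg_FD]
  exact wsum hN hp u (a * F) hu (fun j => b ^ j * D) J

lemma nD {p : ℝ} (hp : 1 ≤ p) {j₀ : ℕ} {η U ρ : ℝ} {W T₀ : ℕ} {b : ℂ[X]} {D : ℕ → RR}
    (hS : Stc p j₀ η U ρ W T₀ b D) (hη : η ≤ 1) {i : ℕ} (hi : i ≤ j₀) : Nn p (D i) ≤ 1 := by
  rcases Nat.lt_or_ge i 2 with h | h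
  · interval_cases i
    · rw [hS.D0]
      exact (hN.one (G := ℤ) p hp).le
    · have h1 := hS.np 1 (by
        intro k hk
        have h3 : k = 0 := by simpa using hk
        rw [h3]; simp)
      rw [one_mul, hN.one (G := ℤ) p hp] at h1
      exact h1
  · exact (hS.small i h hi).trans hη

lemma err_bd {p : ℝ} (hp : 1 ≤ p) {j₀ : ℕ} {η U ρ : ℝ} {W T₀ : ℕ} {b : ℂ[X]} {D : ℕ → RR}
    (hS : Stc p j₀ η U ρ W T₀ b D) (hη : η ≤ 1) (hU : 1 ≤ U) {i : ℕ} (hi : i ≤ j₀) (J : ℕ) :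
    ∑ j ∈ Finset.range J, U ^ j * Nn p (tl b ^ j * D i) ≤ ρ + (j₀ + 1) * U ^ j₀ := by
  have hU0 : 0 ≤ U := by linarith
  have h1 : ∀ j ∈ Finset.range J, U ^ j * Nn p (tl b ^ j * D i) ≤
      U ^ j * Nn p (tl b ^ j * D i - if j ≤ i then D (i - j) else 0) +
        (if j ≤ i then U ^ j₀ else 0) := by
    intro j _
    by_cases hj : j ≤ i
    · simp only [hj, if_true]
      have e : tl b ^ j * D i = (tl b ^ j * D i - D (i - j)) + D (i - j) := by ring
      have h2 : Nn p (tl b ^ j * D i) ≤ Nn p (tl b ^ j * D i - D (i - j)) + 1 := by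
        conv_lhs => rw [e]
        exact (hN.add p _ _ hp).trans (by
          have := nD hN hp hS hη (i := i - j) (by omega)
          linarith)
      have h3 : U ^ j ≤ U ^ j₀ := pow_le_pow_right₀ hU (by omega)
      have h4 : 0 ≤ U ^ j := pow_nonneg hU0 j
      nlinarith [mul_le_mul_of_nonneg_left h2 h4]
    · simp [hj]
  refine (Finset.sum_le_sum h1).trans ?_
  rw [Finset.sum_add_distrib]
  refine add_le_add (hS.act i hi J) ?_
  rw [← Finset.sum_filter]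
  have hsub : (Finset.range J).filter (fun j => j ≤ i) ⊆ Finset.range (j₀ + 1) := by
    intro j hj
    simp only [Finset.mem_filter, Finset.mem_range] at hj ⊢
    omega
  calc ∑ j ∈ (Finset.range J).filter (fun j => j ≤ i), U ^ j₀
      ≤ ∑ j ∈ Finset.range (j₀ + 1), U ^ j₀ :=
        Finset.sum_le_sum_of_subset_of_nonneg hsub fun _ _ _ => pow_nonneg hU0 _
    _ = (j₀ + 1) * U ^ j₀ := by simp

lemma err3_bd {p : ℝ} (hp : 1 ≤ p) {j₀ : ℕ} {η U ρ : ℝ} {W T₀ : ℕ} {b : ℂ[X]} {D : ℕ → RR}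
    (hS : Stc p j₀ η U ρ W T₀ b D) (hU : 1 ≤ U) {l : ℕ} (hl : l + 1 ≤ j₀) (J : ℕ) :
    ∑ j ∈ Finset.range J, U ^ j * Nn p (tl b ^ j * (tl b * D (l + 1) - D l)) ≤ 2 * ρ := by
  have hU0 : 0 ≤ U := by linarith
  have h1 : ∀ j ∈ Finset.range J, U ^ j * Nn p (tl b ^ j * (tl b * D (l + 1) - D l)) ≤
      U ^ (j + 1) * Nn p (tl b ^ (j + 1) * D (l + 1) -
        if j + 1 ≤ l + 1 then D (l + 1 - (j + 1)) else 0) +
      U ^ j * Nn p (tl b ^ j * D l - if j ≤ l then D (l - j) else 0) := by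
    intro j _
    have e : tl b ^ j * (tl b * D (l + 1) - D l) = (tl b ^ (j + 1) * D (l + 1) -
        if j + 1 ≤ l + 1 then D (l + 1 - (j + 1)) else 0) -
        (tl b ^ j * D l - if j ≤ l then D (l - j) else 0) := by
      simp only [Nat.add_le_add_iff_right, Nat.add_sub_add_right]
      ring
    rw [e]
    have h2 := hN.sub p (tl b ^ (j + 1) * D (l + 1) -
        if j + 1 ≤ l + 1 then D (l + 1 - (j + 1)) else 0)
        (tl b ^ j * D l - if j ≤ l then D (l - j) else 0) hp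
    have h3 := hN.nonneg p (tl b ^ (j + 1) * D (l + 1) -
        if j + 1 ≤ l + 1 then D (l + 1 - (j + 1)) else 0)
    have h4 : U ^ j ≤ U ^ (j + 1) := pow_le_pow_right₀ hU (by omega)
    have h5 : 0 ≤ U ^ j := pow_nonneg hU0 j
    nlinarith [mul_le_mul_of_nonneg_left h2 h5, mul_le_mul_of_nonneg_right h4 h3]
  refine (Finset.sum_le_sum h1).trans ?_
  rw [Finset.sum_add_distrib]
  have h6 := hS.act (l + 1) hl (J + 1)
  rw [Finset.sum_range_succ'] at h6
  have h7 := hS.act l (by omega) J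
  have h8 : 0 ≤ U ^ 0 * Nn p (tl b ^ 0 * D (l + 1) - if 0 ≤ l + 1 then D (l + 1 - 0) else 0) :=
    mul_nonneg (pow_nonneg hU0 _) (hN.nonneg _ _)
  linarith

/-- first part -/
lemma r1_bd {p : ℝ} (hp : 1 ≤ p) {n : ℕ} {η U ρ : ℝ} {W T₀ : ℕ} {b : ℂ[X]} {D : ℕ → RR}
    (hS : Stc p (n + 1) η U ρ W T₀ b D) (hη : η ≤ 1) (hU : 1 ≤ U)
    (u a F : RR) (hu : Nn 1 u ≤ U) (J : ℕ) :
    Sg p u (tl b) a J (F * D (n + 1)) ≤ Nn 1 (a * F) * ρ + n * U ^ n * Nn 1 (a * F) * η +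
      (1 / 3 : ℝ) ^ (n + 1) * (Nn 1 (u ^ n * (a * F)) + Nn 1 (u ^ (n + 1) * (a * F))) := by
  have hU0 : 0 ≤ U := by linarith
  rw [Sg_FD]
  have h1 : ∀ j ∈ Finset.range J, (1 / 3 : ℝ) ^ (j + 1) *
      Nn p (u ^ j * ((a * F) * (tl b ^ j * D (n + 1)))) ≤
      (1 / 3 : ℝ) ^ (j + 1) * Nn p (u ^ j * ((a * F) * (tl b ^ j * D (n + 1) -
        if j ≤ n + 1 then D (n + 1 - j) else 0))) +
      (1 / 3 : ℝ) ^ (j + 1) * Nn p (u ^ j * ((a * F) *
        (if j ≤ n + 1 then D (n + 1 - j) else 0))) := by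
    intro j _
    rw [← mul_add]
    refine mul_le_mul_of_nonneg_left ?_ (by positivity)
    have e : u ^ j * ((a * F) * (tl b ^ j * D (n + 1))) =
      u ^ j * ((a * F) * (tl b ^ j * D (n + 1) - if j ≤ n + 1 then D (n + 1 - j) else 0)) +
      u ^ j * ((a * F) * (if j ≤ n + 1 then D (n + 1 - j) else 0)) := by ring
    conv_lhs => rw [e]
    exact hN.add p _ _ hp
  refine (Finset.sum_le_sum h1).trans ?_
  rw [Finset.sum_add_distrib]
  have h2 := (wsum hN hp u (a * F) hu (fun j => tl b ^ j * D (n + 1) -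
        if j ≤ n + 1 then D (n + 1 - j) else 0) J).trans
        (mul_le_mul_of_nonneg_left (hS.act (n + 1) le_rfl J) (hN.nonneg 1 (a * F)))
  have h3 : ∑ j ∈ Finset.range J, (1 / 3 : ℝ) ^ (j + 1) * Nn p (u ^ j * ((a * F) *
        (if j ≤ n + 1 then D (n + 1 - j) else 0))) ≤ n * U ^ n * Nn 1 (a * F) * η +
      (1 / 3 : ℝ) ^ (n + 1) * (Nn 1 (u ^ n * (a * F)) + Nn 1 (u ^ (n + 1) * (a * F))) := by
    refine (trunc (n := n + 2) (fun j => mul_nonneg (by positivity) (hN.nonneg _ _)) ?_ J).trans ?_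
    · intro j hj
      have : ¬ j ≤ n + 1 := by omega
      rw [if_neg this, mul_zero, mul_zero, hN.zero (G := ℤ) p hp, mul_zero]
    · rw [Finset.sum_range_succ, Finset.sum_range_succ]
      have e1 : ∑ j ∈ Finset.range n, (1 / 3 : ℝ) ^ (j + 1) * Nn p (u ^ j * ((a * F) *
          (if j ≤ n + 1 then D (n + 1 - j) else 0))) ≤ n * U ^ n * Nn 1 (a * F) * η := by
        have e2 : ∀ j ∈ Finset.range n, (1 / 3 : ℝ) ^ (j + 1) * Nn p (u ^ j * ((a * F) *
          (if j ≤ n + 1 then D (n + 1 - j) else 0))) ≤ U ^ n * (Nn 1 (a * F) * η) := by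
          intro j hj
          rw [Finset.mem_range] at hj
          rw [if_pos (by omega)]
          have e3 : Nn p (u ^ j * ((a * F) * D (n + 1 - j))) ≤ U ^ n * (Nn 1 (a * F) * η) := by
            refine nmul hN hp _ _ ((npow_le hN u hu j).trans (pow_le_pow_right₀ hU hj.le))
              (nmul hN hp _ _ le_rfl (hS.small _ (by omega) (by omega)))
          have e4 : (1 / 3 : ℝ) ^ (j + 1) ≤ 1 := pow_le_one₀ (by norm_num) (by norm_num)
          calc _ ≤ 1 * Nn p (u ^ j * ((a * F) * D (n + 1 - j))) :=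
                mul_le_mul_of_nonneg_right e4 (hN.nonneg _ _)
            _ ≤ _ := by rw [one_mul]; exact e3
        refine (Finset.sum_le_sum e2).trans ?_
        simp only [Finset.sum_const, Finset.card_range, nsmul_eq_mul]
        apply le_of_eq
        ring
      have e5 : Nn p (u ^ n * ((a * F) * (if n ≤ n + 1 then D (n + 1 - n) else 0))) ≤
          Nn 1 (u ^ n * (a * F)) := by
        rw [if_pos (by omega), ← mul_assoc]
        have := nmul hN hp (u ^ n * (a * F)) (D (n + 1 - n)) le_rfl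
          (nD hN hp hS hη (i := n + 1 - n) (by omega))
        rwa [mul_one] at this
      have e6 : Nn p (u ^ (n + 1) * ((a * F) * (if n + 1 ≤ n + 1 then D (n + 1 - (n + 1)) else 0)))
          ≤ Nn 1 (u ^ (n + 1) * (a * F)) := by
        rw [if_pos le_rfl, ← mul_assoc]
        have := nmul hN hp (u ^ (n + 1) * (a * F)) (D (n + 1 - (n + 1))) le_rfl
          (nD hN hp hS hη (i := n + 1 - (n + 1)) (by omega))
        rwa [mul_one] at this
      have e7 : (1 / 3 : ℝ) ^ (n + 1 + 1) ≤ (1 / 3 : ℝ) ^ (n + 1) :=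
        pow_le_pow_of_le_one (by norm_num) (by norm_num) (by omega)
      have e8 : (0 : ℝ) ≤ (1 / 3 : ℝ) ^ (n + 1) := by positivity
      have e9 : (0 : ℝ) ≤ (1 / 3 : ℝ) ^ (n + 1 + 1) := by positivity
      have f1 := mul_le_mul_of_nonneg_left e5 e8
      have f2 := mul_le_mul e7 e6 (hN.nonneg _ _) e8
      rw [mul_add]
      linarith
  linarith

/-- fourth part -/
lemma r4_bd (hM : S_MUL) {p : ℝ} (hp : 2 < p) {U : ℝ} (hU : 1 ≤ U) {b : ℂ[X]}
    (hb : ∀ z : ℂ, ‖z‖ = 1 → U * ‖b.eval z‖ ≤ 1) (u a ψ : RR) {V Ca : ℝ} (hu : Nn 1 u ≤ V)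
    (hVU : V ≤ U) (ha : Nn 1 a ≤ Ca) (J : ℕ) :
    Sg p u (tl b) a J ψ ≤ Ca * Nn p ψ + (V / U) * (Ca * Nn 2 ψ) := by
  have hU0 : 0 < U := by linarith
  have hV0 : 0 ≤ V := (hN.nonneg 1 u).trans hu
  have hCa0 : 0 ≤ Ca := (hN.nonneg 1 a).trans ha
  have hmul : ∀ j : ℕ, Nn 2 (tl b ^ j * ψ) ≤ (1 / U) ^ j * Nn 2 ψ := by
    intro j
    induction j with
    | zero => simp
    | succ k ih =>
      have e : tl b ^ (k + 1) * ψ = tl b * (tl b ^ k * ψ) := by ring
      rw [e]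
      have h1 := hM b (1 / U) (by positivity) (fun z hz => by
        rw [le_div_iff₀ hU0, mul_comm]; exact hb z hz) (tl b ^ k * ψ)
      refine h1.trans ?_
      calc 1 / U * Nn 2 (tl b ^ k * ψ) ≤ 1 / U * ((1 / U) ^ k * Nn 2 ψ) := by gcongr
        _ = (1 / U) ^ (k + 1) * Nn 2 ψ := by ring
  have hterm : ∀ j : ℕ, Nn p ((u * tl b) ^ j * (a * ψ)) ≤
      (if j = 0 then Ca * Nn p ψ else 0) + (V / U) * (Ca * Nn 2 ψ) := by
    intro j
    have h0 : 0 ≤ (V / U) * (Ca * Nn 2 ψ) :=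
      mul_nonneg (by positivity) (mul_nonneg hCa0 (hN.nonneg _ _))
    rcases Nat.eq_zero_or_pos j with rfl | hj
    · rw [pow_zero, one_mul, if_pos rfl]
      have := nmul hN (r := p) (by linarith) a ψ ha le_rfl
      linarith
    · rw [if_neg (by omega), zero_add]
      have e : (u * tl b) ^ j * (a * ψ) = u ^ j * (a * (tl b ^ j * ψ)) := by ring
      rw [e]
      have h1 : Nn 2 (u ^ j * (a * (tl b ^ j * ψ))) ≤ V ^ j * (Ca * ((1 / U) ^ j * Nn 2 ψ)) :=
        nmul hN (by norm_num) _ _ (npow_le hN u hu j) (nmul hN (by norm_num) _ _ ha (hmul j))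
      have h2 : (V / U) ^ j ≤ V / U := by
        have h3 : V / U ≤ 1 := (div_le_one hU0).2 hVU
        calc (V / U) ^ j ≤ (V / U) ^ 1 := pow_le_pow_of_le_one (by positivity) h3 hj
          _ = V / U := pow_one _
      refine (hN.mono 2 p _ (by norm_num) hp.le).trans (h1.trans ?_)
      calc V ^ j * (Ca * ((1 / U) ^ j * Nn 2 ψ)) = (V / U) ^ j * (Ca * Nn 2 ψ) := by
            rw [div_pow, div_pow, one_pow]; ring
        _ ≤ (V / U) * (Ca * Nn 2 ψ) :=
            mul_le_mul_of_nonneg_right h2 (mul_nonneg hCa0 (hN.nonneg _ _))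
  have hgeo : ∀ J : ℕ, ∑ j ∈ Finset.range J, (1 / 3 : ℝ) ^ (j + 1) ≤ 1 := by
    intro J
    have : ∑ j ∈ Finset.range J, (1 / 3 : ℝ) ^ (j + 1) = (1 - (1 / 3 : ℝ) ^ J) / 2 := by
      induction J with
      | zero => simp
      | succ k ih => rw [Finset.sum_range_succ, ih]; ring
    rw [this]
    have : (0 : ℝ) ≤ (1 / 3 : ℝ) ^ J := by positivity
    linarith
  unfold Sg
  calc ∑ j ∈ Finset.range J, (1 / 3 : ℝ) ^ (j + 1) * Nn p ((u * tl b) ^ j * (a * ψ))
      ≤ ∑ j ∈ Finset.range J, (1 / 3 : ℝ) ^ (j + 1) *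
        ((if j = 0 then Ca * Nn p ψ else 0) + (V / U) * (Ca * Nn 2 ψ)) := by
        refine Finset.sum_le_sum fun j _ => mul_le_mul_of_nonneg_left (hterm j) (by positivity)
    _ = ∑ j ∈ Finset.range J, (1 / 3 : ℝ) ^ (j + 1) * (if j = 0 then Ca * Nn p ψ else 0) +
        (∑ j ∈ Finset.range J, (1 / 3 : ℝ) ^ (j + 1)) * ((V / U) * (Ca * Nn 2 ψ)) := by
        rw [Finset.sum_mul, ← Finset.sum_add_distrib]
        refine Finset.sum_congr rfl fun j _ => by ring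
    _ ≤ Ca * Nn p ψ + 1 * ((V / U) * (Ca * Nn 2 ψ)) := by
        refine add_le_add ?_ (mul_le_mul_of_nonneg_right (hgeo J)
          (mul_nonneg (by positivity) (mul_nonneg hCa0 (hN.nonneg _ _))))
        have h5 : 0 ≤ Ca * Nn p ψ := mul_nonneg hCa0 (hN.nonneg _ _)
        refine (trunc (n := 1) (fun j => mul_nonneg (by positivity) (by split_ifs <;> linarith))
          (fun j hj => by rw [if_neg (by omega), mul_zero]) J).trans ?_
        simp only [Finset.sum_range_one, if_true, zero_add, pow_one]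
        linarith
    _ = Ca * Nn p ψ + (V / U) * (Ca * Nn 2 ψ) := by ring

end

end EstAux

open EstAux

theorem EST_proved (hI : S_INV) (hR : S_RID) (hM : S_MUL) (hN : S_NRM) : S_EST := by
  intro p hp A hA
  have hp1 : (1 : ℝ) ≤ p := by linarith
  obtain ⟨Ca, hCa, hCa'⟩ := hI A hA
  refine ⟨Ca, hCa, hCa', ?_⟩
  intro γ hγ m f ψ ε hε
  obtain ⟨Cc, hCc, hCc'⟩ := hI γ hγ
  obtain ⟨Fb, hFb⟩ : ∃ Fb : ℝ, Fb = ∑ i, Nn 1 (f i) := ⟨_, rfl⟩
  obtain ⟨Ψ, hΨ⟩ : ∃ Ψ : ℝ, Ψ = ∑ i, Nn 2 (ψ i) := ⟨_, rfl⟩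
  have hF : ∀ i, Nn 1 (f i) ≤ Fb := fun i => by
    rw [hFb]
    exact Finset.single_le_sum (f := fun i => Nn 1 (f i)) (fun _ _ => hN.nonneg _ _)
      (Finset.mem_univ i)
  have hP : ∀ i, Nn 2 (ψ i) ≤ Ψ := fun i => by
    rw [hΨ]
    exact Finset.single_le_sum (f := fun i => Nn 2 (ψ i)) (fun _ _ => hN.nonneg _ _)
      (Finset.mem_univ i)
  have hFb0 : 0 ≤ Fb := by rw [hFb]; exact Finset.sum_nonneg fun _ _ => hN.nonneg _ _
  have hΨ0 : 0 ≤ Ψ := by rw [hΨ]; exact Finset.sum_nonneg fun _ _ => hN.nonneg _ _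
  obtain ⟨g, hg⟩ : ∃ g : ℝ, g = Nn 1 (tl γ) := ⟨_, rfl⟩
  have hg0 : 0 ≤ g := by rw [hg]; exact hN.nonneg _ _
  obtain ⟨al, hal⟩ : ∃ al : ℝ, al = Nn 1 (tl A) := ⟨_, rfl⟩
  have hal0 : 0 ≤ al := by rw [hal]; exact hN.nonneg _ _
  obtain ⟨V, hV⟩ : ∃ V : ℝ, V = g * Ca := ⟨_, rfl⟩
  have hV0 : 0 ≤ V := by rw [hV]; positivity
  -- the index n
  obtain ⟨n, hn⟩ : ∃ n : ℕ, (1 / 3 : ℝ) ^ (n + 1) * (4 * Fb * (1 + V)) ≤ ε / 6 := by
    have hK : 0 ≤ 4 * Fb * (1 + V) := by positivity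
    obtain ⟨n, hn⟩ := exists_pow_lt_of_lt_one (show 0 < ε / 6 / (4 * Fb * (1 + V) + 1) by positivity)
      (show (1 / 3 : ℝ) < 1 by norm_num)
    refine ⟨n, ?_⟩
    have h1 : (1 / 3 : ℝ) ^ (n + 1) ≤ ε / 6 / (4 * Fb * (1 + V) + 1) :=
      (pow_le_pow_of_le_one (by norm_num) (by norm_num) (by omega)).trans hn.le
    calc (1 / 3 : ℝ) ^ (n + 1) * (4 * Fb * (1 + V))
        ≤ ε / 6 / (4 * Fb * (1 + V) + 1) * (4 * Fb * (1 + V) + 1) := by
          refine mul_le_mul h1 (by linarith) hK (by positivity)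
      _ = ε / 6 := by field_simp
  -- the number U
  obtain ⟨U₀, hU₀⟩ := exists_U A γ hA
  obtain ⟨U, hUdef⟩ : ∃ U : ℝ, U = max 1 (max V (max U₀ (V * (Ca * Ψ) * (6 / ε)))) := ⟨_, rfl⟩
  have hU1 : 1 ≤ U := by rw [hUdef]; exact le_max_left _ _
  have hU0 : 0 < U := by linarith
  have hUV : V ≤ U := by
    rw [hUdef]; exact (le_max_left _ _).trans (le_max_right _ _)
  have hUz : ∀ z : ℂ, ‖z‖ = 1 → ‖γ.eval z‖ < U * ‖A.eval z‖ := hU₀ U (by
    rw [hUdef]; exact ((le_max_left _ _).trans (le_max_right _ _)).trans (le_max_right _ _))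
  have hUψ : (V / U) * (Ca * Ψ) ≤ ε / 6 := by
    have h1 : V * (Ca * Ψ) * (6 / ε) ≤ U := by
      rw [hUdef]; exact ((le_max_right _ _).trans (le_max_right _ _)).trans (le_max_right _ _)
    have h2 : V / U * (Ca * Ψ) = V * (Ca * Ψ) / U := by ring
    rw [h2, div_le_iff₀ hU0]
    calc V * (Ca * Ψ) = ε / 6 * (V * (Ca * Ψ) * (6 / ε)) := by field_simp
      _ ≤ ε / 6 * U := by gcongr
  -- the approximate inverse of γ
  obtain ⟨Q, hQ⟩ : ∃ Q : ℝ, Q = (1 + al * Cc) ^ n := ⟨_, rfl⟩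
  have hQ0 : 0 ≤ Q := by rw [hQ]; positivity
  obtain ⟨κc, hκc0, hκc1, hκc⟩ := small (X := n * (2 * Q * Fb) * (1 + ((n + 1 : ℕ) + 1) * U ^ (n + 1)))
    (ε := ε / 6) (B := 1 / (2 * ((n : ℝ) + 1))) (by positivity) (by positivity) (by positivity)
  obtain ⟨c, hc1, hc2⟩ := hCc' κc hκc0
  -- η
  obtain ⟨η, hη0, hη1, hη⟩ := small (X := n * U ^ n * (2 * Q * Fb) + n * (Q * Fb))
    (ε := ε / 6) (B := 1) (by positivity) (by positivity) one_pos
  obtain ⟨ρ, hρ0, hρ1, hρ⟩ := small (X := 2 * Q * Fb + (n + 1) * (V * Q * Fb * 2))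
    (ε := ε / 6) (B := 1) (by positivity) (by positivity) one_pos
  obtain ⟨κ, hκdef⟩ : ∃ κ : ℝ, κ = 1 / (2 * ((n : ℝ) + 1)) := ⟨_, rfl⟩
  have hκ0 : 0 < κ := by rw [hκdef]; positivity
  have hκ1 : κ ≤ 1 := by
    rw [hκdef, div_le_one (by positivity)]
    have : (0 : ℝ) ≤ n := by positivity
    linarith
  -- W
  obtain ⟨W, hWγ, hWf⟩ : ∃ W : ℕ, (∀ k ∈ (tl γ).coeff.support, |k| ≤ W) ∧
      ∀ i, ∀ k ∈ (f i).coeff.support, |k| ≤ W := by
    refine ⟨∑ k ∈ (tl γ).coeff.support, k.natAbs + ∑ i, ∑ k ∈ (f i).coeff.support, k.natAbs,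
      ?_, ?_⟩
    · intro k hk
      have h1 : k.natAbs ≤ ∑ k ∈ (tl γ).coeff.support, k.natAbs :=
        Finset.single_le_sum (f := fun k : ℤ => k.natAbs) (fun _ _ => Nat.zero_le _) hk
      rw [Int.abs_eq_natAbs]
      exact_mod_cast h1.trans (Nat.le_add_right _ _)
    · intro i k hk
      have h1 : k.natAbs ≤ ∑ k ∈ (f i).coeff.support, k.natAbs :=
        Finset.single_le_sum (f := fun k : ℤ => k.natAbs) (fun _ _ => Nat.zero_le _) hk
      have h2 : ∑ k ∈ (f i).coeff.support, k.natAbs ≤ ∑ i, ∑ k ∈ (f i).coeff.support, k.natAbs :=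
        Finset.single_le_sum (f := fun i => ∑ k ∈ (f i).coeff.support, k.natAbs)
          (fun _ _ => Nat.zero_le _) (Finset.mem_univ i)
      rw [Int.abs_eq_natAbs]
      exact_mod_cast (h1.trans h2).trans (Nat.le_add_left _ _)
  refine ⟨n, c, η, U, ρ, κ, W, hη0, hU1, hρ0, hκ0, hWγ, ?_, hUz, ?_⟩
  · rw [← hg, ← hV]; exact hUV
  intro T₀ b D hS i
  have hAc : Nn 1 (-(tl A * c)) ≤ al * Cc := by
    rw [hN.neg]
    exact nmul hN le_rfl _ _ hal.symm.le hc2
  have hAc0 : 0 ≤ al * Cc := by positivity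
  have hpowc : ∀ l ≤ n, Nn 1 ((-(tl A * c)) ^ l) ≤ Q := by
    intro l hl
    rw [hQ]
    calc Nn 1 ((-(tl A * c)) ^ l) ≤ (1 + al * Cc) ^ l :=
          npow_le hN _ (hAc.trans (by linarith)) l
      _ ≤ (1 + al * Cc) ^ n := pow_le_pow_right₀ (by linarith) hl
  constructor
  · rw [Finset.sum_range_succ']
    have h1 : Nn p ((-(tl A * c)) ^ 0 * f i * D (0 + 1)) ≤ Nn p (f i) := by
      rw [pow_zero, one_mul]
      exact hS.np (f i) (hWf i)
    have h2 : Nn p (∑ l ∈ Finset.range n, (-(tl A * c)) ^ (l + 1) * f i * D (l + 1 + 1)) ≤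
        n * (Q * Fb * η) := by
      refine (hN.sum p _ _ hp1).trans ?_
      calc ∑ l ∈ Finset.range n, Nn p ((-(tl A * c)) ^ (l + 1) * f i * D (l + 1 + 1))
          ≤ ∑ l ∈ Finset.range n, Q * Fb * η := by
            refine Finset.sum_le_sum fun l hl => ?_
            rw [Finset.mem_range] at hl
            exact nmul hN hp1 _ _ (nmul hN le_rfl _ _ (hpowc (l + 1) (by omega)) (hF i))
              (hS.small _ (by omega) (by omega))
        _ = n * (Q * Fb * η) := by simp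
    refine (hN.add p _ _ hp1).trans ?_
    have h3 : 0 ≤ η * (n * U ^ n * (2 * Q * Fb)) := by positivity
    have h4 : n * (Q * Fb * η) = η * (n * (Q * Fb)) := by ring
    rw [mul_add] at hη
    linarith
  · intro a ha1 ha2 J
    set u : RR := tl γ * a with hu
    have huV : Nn 1 u ≤ V := by
      rw [hV]
      exact nmul hN le_rfl _ _ hg.symm.le ha2
    have huU : Nn 1 u ≤ U := huV.trans hUV
    have hAa : Nn 1 (tl A * a) ≤ 1 + κ := by
      have e : tl A * a = 1 + (tl A * a - 1) := by ring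
      rw [e]
      refine (hN.add 1 _ _ le_rfl).trans ?_
      rw [hN.one (G := ℤ) 1 le_rfl]
      linarith
    have hgc : Nn 1 (tl γ * c) ≤ 1 + κc := by
      have e : tl γ * c = 1 + (tl γ * c - 1) := by ring
      rw [e]
      refine (hN.add 1 _ _ le_rfl).trans ?_
      rw [hN.one (G := ℤ) 1 le_rfl]
      linarith
    have hAa2 : Nn 1 (tl A * a) ≤ 2 := by linarith
    have hrid := hR (tl A) (tl γ) (tl b) c (f i) D n hS.D0
    show Sg p u (tl b) a J ((tl A + tl γ * tl b) * (∑ l ∈ Finset.range (n + 1),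
      (-(tl A * c)) ^ l * f i * D (l + 1)) - tl γ * f i - ψ i) ≤ Ca * Nn p (ψ i) + ε
    rw [hrid]
    have s1 := Sg_sub hN hp1 u (tl b) a J (tl A * (-(tl A * c)) ^ n * f i * D (n + 1) -
      (tl γ * c - 1) * ∑ l ∈ Finset.range n, tl A * (-(tl A * c)) ^ l * f i * D (l + 1) +
      tl γ * ∑ l ∈ Finset.range (n + 1), (-(tl A * c)) ^ l * f i * (tl b * D (l + 1) - D l)) (ψ i)
    have s2 := Sg_add hN hp1 u (tl b) a J (tl A * (-(tl A * c)) ^ n * f i * D (n + 1) -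
      (tl γ * c - 1) * ∑ l ∈ Finset.range n, tl A * (-(tl A * c)) ^ l * f i * D (l + 1))
      (tl γ * ∑ l ∈ Finset.range (n + 1), (-(tl A * c)) ^ l * f i * (tl b * D (l + 1) - D l))
    have s3 := Sg_sub hN hp1 u (tl b) a J (tl A * (-(tl A * c)) ^ n * f i * D (n + 1))
      ((tl γ * c - 1) * ∑ l ∈ Finset.range n, tl A * (-(tl A * c)) ^ l * f i * D (l + 1))
    -- first part
    have haF : Nn 1 (a * (tl A * (-(tl A * c)) ^ n * f i)) ≤ 2 * Q * Fb := by
      have e : a * (tl A * (-(tl A * c)) ^ n * f i) = (tl A * a) * (-(tl A * c)) ^ n * f i := by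
        ring
      rw [e]
      exact nmul hN le_rfl _ _ (nmul hN le_rfl _ _ hAa2 (hpowc n le_rfl)) (hF i)
    have hun : Nn 1 (u ^ n * (a * (tl A * (-(tl A * c)) ^ n * f i))) ≤ 4 * Fb := by
      have e : u ^ n * (a * (tl A * (-(tl A * c)) ^ n * f i)) =
          (-((tl A * a) * (tl γ * c))) ^ n * ((tl A * a) * f i) := by
        have e1 : (-((tl A * a) * (tl γ * c))) ^ n = u ^ n * (-(tl A * c)) ^ n := by
          rw [← mul_pow, hu]
          congr 1
          ring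
        rw [e1]
        ring
      rw [e]
      have h1 : Nn 1 (-((tl A * a) * (tl γ * c))) ≤ (1 + κ) * (1 + κc) := by
        rw [hN.neg]
        exact nmul hN le_rfl _ _ hAa hgc
      have h2 := nmul hN le_rfl _ _ (npow_le hN _ h1 n) (nmul hN le_rfl _ _ hAa (hF i))
      refine h2.trans ?_
      have h3 := pow_two_bd hκ0.le hκdef.le (n := n)
      have h4 := pow_two_bd hκc0.le hκc1 (n := n)
      have h5 : (1 + κc) ^ n ≤ (1 + κc) ^ (n + 1) := pow_le_pow_right₀ (by linarith) (by omega)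
      calc ((1 + κ) * (1 + κc)) ^ n * ((1 + κ) * Fb) = (1 + κ) ^ (n + 1) * (1 + κc) ^ n * Fb := by
            rw [mul_pow]; ring
        _ ≤ 2 * 2 * Fb := by
            gcongr
            exact h5.trans h4
        _ = 4 * Fb := by ring
    have hun1 : Nn 1 (u ^ (n + 1) * (a * (tl A * (-(tl A * c)) ^ n * f i))) ≤ V * (4 * Fb) := by
      have e : u ^ (n + 1) * (a * (tl A * (-(tl A * c)) ^ n * f i)) =
          u * (u ^ n * (a * (tl A * (-(tl A * c)) ^ n * f i))) := by ring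
      rw [e]
      exact nmul hN le_rfl _ _ huV hun
    have b1 := r1_bd hN hp1 hS hη1 hU1 u a (tl A * (-(tl A * c)) ^ n * f i) huU J
    have b1' : Sg p u (tl b) a J (tl A * (-(tl A * c)) ^ n * f i * D (n + 1)) ≤
        2 * Q * Fb * ρ + η * (n * U ^ n * (2 * Q * Fb)) +
          (1 / 3 : ℝ) ^ (n + 1) * (4 * Fb * (1 + V)) := by
      refine b1.trans ?_
      have h1 := mul_le_mul_of_nonneg_right haF hρ0.le
      have h2 : n * U ^ n * Nn 1 (a * (tl A * (-(tl A * c)) ^ n * f i)) * η ≤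
          η * (n * U ^ n * (2 * Q * Fb)) := by
        calc n * U ^ n * Nn 1 (a * (tl A * (-(tl A * c)) ^ n * f i)) * η
            ≤ n * U ^ n * (2 * Q * Fb) * η := by gcongr
          _ = η * (n * U ^ n * (2 * Q * Fb)) := by ring
      have h3 : (1 / 3 : ℝ) ^ (n + 1) * (Nn 1 (u ^ n * (a * (tl A * (-(tl A * c)) ^ n * f i))) +
          Nn 1 (u ^ (n + 1) * (a * (tl A * (-(tl A * c)) ^ n * f i)))) ≤
          (1 / 3 : ℝ) ^ (n + 1) * (4 * Fb * (1 + V)) := by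
        refine mul_le_mul_of_nonneg_left ?_ (by positivity)
        linarith
      linarith
    -- second part
    have b2 : Sg p u (tl b) a J ((tl γ * c - 1) *
        ∑ l ∈ Finset.range n, tl A * (-(tl A * c)) ^ l * f i * D (l + 1)) ≤
        κc * (n * (2 * Q * Fb) * (1 + ((n + 1 : ℕ) + 1) * U ^ (n + 1))) := by
      have e : (tl γ * c - 1) * ∑ l ∈ Finset.range n, tl A * (-(tl A * c)) ^ l * f i * D (l + 1) =
          ∑ l ∈ Finset.range n, ((tl γ * c - 1) * (tl A * (-(tl A * c)) ^ l * f i)) * D (l + 1) := by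
        rw [Finset.mul_sum]
        refine Finset.sum_congr rfl fun l _ => by ring
      rw [e]
      refine (Sg_sum hN hp1 u (tl b) a J _ _).trans ?_
      calc ∑ l ∈ Finset.range n, Sg p u (tl b) a J
            (((tl γ * c - 1) * (tl A * (-(tl A * c)) ^ l * f i)) * D (l + 1))
          ≤ ∑ l ∈ Finset.range n, κc * (2 * Q * Fb) * (1 + ((n + 1 : ℕ) + 1) * U ^ (n + 1)) := by
            refine Finset.sum_le_sum fun l hl => ?_
            rw [Finset.mem_range] at hl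
            refine (Sg_le hN hp1 u (tl b) a huU J _ _).trans ?_
            have h1 : Nn 1 (a * ((tl γ * c - 1) * (tl A * (-(tl A * c)) ^ l * f i))) ≤
                κc * (2 * Q * Fb) := by
              have e2 : a * ((tl γ * c - 1) * (tl A * (-(tl A * c)) ^ l * f i)) =
                  (tl γ * c - 1) * ((tl A * a) * (-(tl A * c)) ^ l * f i) := by ring
              rw [e2]
              exact nmul hN le_rfl _ _ hc1
                (nmul hN le_rfl _ _ (nmul hN le_rfl _ _ hAa2 (hpowc l hl.le)) (hF i))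
            have h2 := err_bd hN hp1 hS hη1 hU1 (i := l + 1) (by omega) J
            have h3 : (0 : ℝ) ≤ ∑ j ∈ Finset.range J, U ^ j * Nn p (tl b ^ j * D (l + 1)) :=
              Finset.sum_nonneg fun _ _ => mul_nonneg (pow_nonneg hU0.le _) (hN.nonneg _ _)
            exact mul_le_mul h1 (h2.trans (by linarith)) h3 (by positivity)
        _ = κc * (n * (2 * Q * Fb) * (1 + ((n + 1 : ℕ) + 1) * U ^ (n + 1))) := by
            simp only [Finset.sum_const, Finset.card_range, nsmul_eq_mul]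
            ring
    -- third part
    have b3 : Sg p u (tl b) a J (tl γ *
        ∑ l ∈ Finset.range (n + 1), (-(tl A * c)) ^ l * f i * (tl b * D (l + 1) - D l)) ≤
        ρ * ((n + 1) * (V * Q * Fb * 2)) := by
      have e : tl γ * ∑ l ∈ Finset.range (n + 1), (-(tl A * c)) ^ l * f i *
          (tl b * D (l + 1) - D l) =
          ∑ l ∈ Finset.range (n + 1), (tl γ * ((-(tl A * c)) ^ l * f i)) *
            (tl b * D (l + 1) - D l) := by
        rw [Finset.mul_sum]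
        refine Finset.sum_congr rfl fun l _ => by ring
      rw [e]
      refine (Sg_sum hN hp1 u (tl b) a J _ _).trans ?_
      calc ∑ l ∈ Finset.range (n + 1), Sg p u (tl b) a J
            ((tl γ * ((-(tl A * c)) ^ l * f i)) * (tl b * D (l + 1) - D l))
          ≤ ∑ l ∈ Finset.range (n + 1), V * (Q * Fb) * (2 * ρ) := by
            refine Finset.sum_le_sum fun l hl => ?_
            rw [Finset.mem_range] at hl
            refine (Sg_le hN hp1 u (tl b) a huU J _ _).trans ?_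
            have h1 : Nn 1 (a * (tl γ * ((-(tl A * c)) ^ l * f i))) ≤ V * (Q * Fb) := by
              have e2 : a * (tl γ * ((-(tl A * c)) ^ l * f i)) =
                  u * ((-(tl A * c)) ^ l * f i) := by rw [hu]; ring
              rw [e2]
              exact nmul hN le_rfl _ _ huV (nmul hN le_rfl _ _ (hpowc l (by omega)) (hF i))
            have h2 := err3_bd hN hp1 hS hU1 (l := l) (by omega) J
            have h3 : (0 : ℝ) ≤ ∑ j ∈ Finset.range J,
                U ^ j * Nn p (tl b ^ j * (tl b * D (l + 1) - D l)) :=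
              Finset.sum_nonneg fun _ _ => mul_nonneg (pow_nonneg hU0.le _) (hN.nonneg _ _)
            exact mul_le_mul h1 h2 h3 (by positivity)
        _ = ρ * ((n + 1) * (V * Q * Fb * 2)) := by
            simp only [Finset.sum_const, Finset.card_range, nsmul_eq_mul]
            push_cast
            ring
    -- fourth part
    have b4 := r4_bd hN hM hp hU1 hS.sup u a (ψ i) huV hUV ha2 J
    have b4' : (V / U) * (Ca * Nn 2 (ψ i)) ≤ ε / 6 := by
      refine le_trans ?_ hUψ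
      have := hP i
      gcongr
    have h1 : 0 ≤ η * (n * (Q * Fb)) := by positivity
    rw [mul_add] at hη hρ
    have h2 : 2 * Q * Fb * ρ = ρ * (2 * Q * Fb) := by ring
    linarith

end HM
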